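import Pool.Agent.KS6_55.NR.Main

set_option autoImplicit false

open Set Topology Filter

namespace Pool.Agent.KS6_55.NR

variable {G : Type} [Group G] [TopologicalSpace G]

/-- A compact homogeneous space of a locally Euclidean group is second countable. -/
theorem second_countable (E : Type) [NormedAddCommGroup E] [NormedSpace ℝ E]
    [FiniteDimensional ℝ E] [ChartedSpace E G] [IsTopologicalGroup G] (Γ : Subgroup G)
    [CompactSpace (G ⧸ Γ)] : SecondCountableTopology (G ⧸ Γ) := by
  have : ProperSpace E := FiniteDimensional.proper_real E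
  let S : G → Set (G ⧸ Γ) := fun g => (QuotientGroup.mk : G → G ⧸ Γ) '' (chartAt E g).source
  have hS : ∀ g, IsOpen (S g) := fun g =>
    QuotientGroup.isOpenMap_coe _ (chartAt E g).open_source
  obtain ⟨t, ht⟩ := (isCompact_univ (X := G ⧸ Γ)).elim_finite_subcover S hS (fun z _ => by
    obtain ⟨x, rfl⟩ := QuotientGroup.mk_surjective z
    exact mem_iUnion.2 ⟨x, x, mem_chart_source E x, rfl⟩)
  have hsc : ∀ g, SecondCountableTopology (S g) := by
    intro g
    have h1 : SecondCountableTopology (chartAt E g).source :=
      (chartAt E g).secondCountableTopology_source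
    let φ : (chartAt E g).source → S g := fun x => ⟨QuotientGroup.mk (x : G), x, x.2, rfl⟩
    have ho : IsOpenMap φ := by
      refine IsOpenMap.subtype_mk ?_ _
      exact QuotientGroup.isOpenMap_coe.comp (chartAt E g).open_source.isOpenMap_subtype_val
    have hc : Continuous φ := by
      refine Continuous.subtype_mk ?_ _
      exact QuotientGroup.continuous_mk.comp continuous_subtype_val
    have hs : Function.Surjective φ := by
      rintro ⟨_, x, hx, rfl⟩
      exact ⟨⟨x, hx⟩, rfl⟩
    exact (ho.isQuotientMap hc hs).secondCountableTopology ho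
  refine TopologicalSpace.secondCountableTopology_of_countable_cover (ι := t) (U := fun i => S i)
    (fun i => hS i) (eq_univ_of_forall fun z => ?_)
  obtain ⟨i, hi, h⟩ := mem_iUnion₂.1 (ht (mem_univ z))
  exact mem_iUnion.2 ⟨⟨i, hi⟩, h⟩

end Pool.Agent.KS6_55.NR
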