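import Pool.Graph.R_pool_sql_team_ae5b0c61.H96.NJ6

set_option autoImplicit false

open Set Topology Filter

namespace Pool.Agent.KS6_55.NR

variable {G : Type} [Group G] [TopologicalSpace G]

section general

variable [IsTopologicalGroup G] [T2Space G] [LocallyCompactSpace G]
  [LocallyPathConnectedSpace G] [Group.IsNilpotent G] (Γ : Subgroup G)

/-- The open version with a positive time (the derivation of the library). -/
theorem pos_time (hΓ : IsClosed (Γ : Set G)) [CompactSpace (G ⧸ Γ)] (g : G)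
    (hmin : ∀ m : ℕ, 0 < m → Dense (range fun n : ℤ => (g ^ m) ^ n • ((1 : G) : G ⧸ Γ)))
    {d : ℕ} (p : Fin d → Polynomial ℤ) (hp : ∀ i, (p i).eval 0 = 0) {k : ℕ} (hk : 0 < k) (j : ℕ)
    (hj : j < k) {U : Set (G ⧸ Γ)} (hU : IsOpen U) (hne : U.Nonempty) :
    ∃ n : ℕ, 0 < n ∧ ∃ x ∈ U, ∀ i, g ^ ((p i).eval ((k : ℤ) * (n : ℤ) + (j : ℤ))) • x ∈ U := by
  let r : Polynomial ℤ := Polynomial.X + Polynomial.C (2 * k : ℤ) * Polynomial.X ^ 2
  obtain ⟨n, l, h⟩ := Pool.Agent.H96.NJ.main Γ hΓ g hmin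
    (fun i : Option (Fin d) => i.elim 0 fun i => (p i).comp r)
    (fun i => by cases i <;> simp [r, Polynomial.eval_comp, hp]) (k := 2 * k) (by omega) (k + j)
    hU hne
  have hk' : (1 : ℤ) ≤ k := by exact_mod_cast hk
  have hj' : (j : ℤ) + 1 ≤ k := by exact_mod_cast hj
  have hj0 : (0 : ℤ) ≤ j := by positivity
  set t : ℤ := ((2 * k : ℕ) : ℤ) * n + (k + j) with ht
  push_cast at ht
  have hpos : 0 < 2 * n + 1 + 2 * t ^ 2 := by
    rcases le_or_gt 0 n with h0 | h0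
    · positivity
    · have : t ≤ 2 * n + 1 := by nlinarith
      nlinarith
  obtain ⟨m, hm⟩ := Int.eq_ofNat_of_zero_le hpos.le
  refine ⟨m, by exact_mod_cast hm ▸ hpos, _, by simpa using h none, fun i => ?_⟩
  have e : (k : ℤ) * m + j = r.eval t := by
    rw [← hm]; simp only [r, Polynomial.eval_add, Polynomial.eval_mul, Polynomial.eval_C,
      Polynomial.eval_pow, Polynomial.eval_X]
    rw [ht]; ring
  have := h (some i)
  simp only [Option.elim_some, Polynomial.eval_comp, zpow_add] at this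
  rw [e]
  exact this

/-- Arbitrarily large times. -/
theorem large_time (hΓ : IsClosed (Γ : Set G)) [CompactSpace (G ⧸ Γ)] (g : G)
    (hmin : ∀ m : ℕ, 0 < m → Dense (range fun n : ℤ => (g ^ m) ^ n • ((1 : G) : G ⧸ Γ)))
    {d : ℕ} (p : Fin d → Polynomial ℤ) (hp : ∀ i, (p i).eval 0 = 0) {k : ℕ} (hk : 0 < k) (j : ℕ)
    (hj : j < k) (N : ℕ) {U : Set (G ⧸ Γ)} (hU : IsOpen U) (hne : U.Nonempty) :
    ∃ n : ℕ, N ≤ n ∧ ∃ x ∈ U, ∀ i, g ^ ((p i).eval ((k : ℤ) * (n : ℤ) + (j : ℤ))) • x ∈ U := by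
  obtain ⟨n, hn, x, hx, h⟩ := pos_time Γ hΓ g hmin p hp (k := k * (N + 1)) (by positivity) j
    (by nlinarith) hU hne
  refine ⟨(N + 1) * n, by nlinarith, x, hx, fun i => ?_⟩
  have e : (k : ℤ) * (((N + 1) * n : ℕ) : ℤ) + (j : ℤ) =
      ((k * (N + 1) : ℕ) : ℤ) * (n : ℤ) + (j : ℤ) := by push_cast; ring
  rw [e]
  exact h i

/-- The points which return along all polynomials. -/
def Good (g : G) : Set (G ⧸ Γ) :=
  {x | ∀ (d : ℕ) (p : Fin d → Polynomial ℤ), (∀ i, (p i).eval 0 = 0) → ∀ k j : ℕ, j < k →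
    ∀ U ∈ 𝓝 x, ∀ N : ℕ, ∃ n : ℕ, N ≤ n ∧
      ∀ i, g ^ ((p i).eval ((k : ℤ) * (n : ℤ) + (j : ℤ))) • x ∈ U}

/-- The sets of the Baire argument. -/
def W (g : G) (B : Set (G ⧸ Γ)) {d : ℕ} (p : Fin d → Polynomial ℤ) (k j N : ℕ) : Set (G ⧸ Γ) :=
  {x | x ∈ B ∧ ∃ n : ℕ, N ≤ n ∧ ∀ i, g ^ ((p i).eval ((k : ℤ) * (n : ℤ) + (j : ℤ))) • x ∈ B} ∪
    (closure B)ᶜ

omit [T2Space G] [LocallyCompactSpace G] [LocallyPathConnectedSpace G] [Group.IsNilpotent G] in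
lemma W_open (g : G) {B : Set (G ⧸ Γ)} (hB : IsOpen B) {d : ℕ} (p : Fin d → Polynomial ℤ)
    (k j N : ℕ) : IsOpen (W Γ g B p k j N) := by
  refine IsOpen.union ?_ isClosed_closure.isOpen_compl
  have e : {x | x ∈ B ∧ ∃ n : ℕ, N ≤ n ∧
      ∀ i, g ^ ((p i).eval ((k : ℤ) * (n : ℤ) + (j : ℤ))) • x ∈ B} =
      B ∩ ⋃ n : ℕ, ⋃ (_ : N ≤ n), ⋂ i, (fun x : G ⧸ Γ =>
        g ^ ((p i).eval ((k : ℤ) * (n : ℤ) + (j : ℤ))) • x) ⁻¹' B := by
    ext x
    simp only [mem_setOf_eq, mem_inter_iff, mem_iUnion, mem_iInter, mem_preimage, exists_prop]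
  rw [e]
  refine hB.inter (isOpen_iUnion fun n => isOpen_iUnion fun _ => isOpen_iInter_of_finite fun i => ?_)
  exact hB.preimage (continuous_const_smul _)

lemma W_dense (hΓ : IsClosed (Γ : Set G)) [CompactSpace (G ⧸ Γ)] (g : G)
    (hmin : ∀ m : ℕ, 0 < m → Dense (range fun n : ℤ => (g ^ m) ^ n • ((1 : G) : G ⧸ Γ)))
    {B : Set (G ⧸ Γ)} (hB : IsOpen B) {d : ℕ} (p : Fin d → Polynomial ℤ)
    (hp : ∀ i, (p i).eval 0 = 0) {k : ℕ} (j : ℕ) (hj : j < k) (N : ℕ) :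
    Dense (W Γ g B p k j N) := by
  rw [dense_iff_inter_open]
  intro O hO hne
  by_cases h : (O ∩ B).Nonempty
  · obtain ⟨n, hn, x, hx, hx2⟩ := large_time Γ hΓ g hmin p hp (by omega : 0 < k) j hj N
      (hO.inter hB) h
    exact ⟨x, hx.1, Or.inl ⟨hx.2, n, hn, fun i => (hx2 i).2⟩⟩
  · obtain ⟨x, hx⟩ := hne
    refine ⟨x, hx, Or.inr fun h2 => h ?_⟩
    exact mem_closure_iff.1 h2 O hO hx

instance : Countable (Polynomial ℤ) := by
  rw [← Cardinal.mk_le_aleph0_iff]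
  exact Polynomial.cardinalMk_le_max.trans (by simp)

/-- The index set of the Baire argument. -/
abbrev Idx (Γ : Subgroup G) [SecondCountableTopology (G ⧸ Γ)] : Type :=
  Σ d : ℕ, (TopologicalSpace.countableBasis (G ⧸ Γ)) × {p : Fin d → Polynomial ℤ //
    ∀ i, (p i).eval 0 = 0} × {q : ℕ × ℕ // q.2 < q.1} × ℕ

omit [T2Space G] [LocallyCompactSpace G] [LocallyPathConnectedSpace G] [Group.IsNilpotent G]
  [IsTopologicalGroup G] in
lemma inter_W [SecondCountableTopology (G ⧸ Γ)] (g : G) :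
    (⋂ z : Idx Γ, W Γ g z.2.1.1 z.2.2.1.1 z.2.2.2.1.1.1 z.2.2.2.1.1.2 z.2.2.2.2) ⊆ Good Γ g := by
  intro x hx d p hp k j hj U hU N
  obtain ⟨B, hB, hxB, hBU⟩ := (TopologicalSpace.isBasis_countableBasis (G ⧸ Γ)).mem_nhds_iff.1 hU
  have h := mem_iInter.1 hx ⟨d, ⟨B, hB⟩, ⟨p, hp⟩, ⟨(k, j), hj⟩, N⟩
  rcases h with h | h
  · obtain ⟨-, n, hn, h2⟩ := h
    exact ⟨n, hn, fun i => hBU (h2 i)⟩
  · exact absurd (subset_closure hxB) h

theorem good_residual (hΓ : IsClosed (Γ : Set G)) [CompactSpace (G ⧸ Γ)]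
    [SecondCountableTopology (G ⧸ Γ)] (g : G)
    (hmin : ∀ m : ℕ, 0 < m → Dense (range fun n : ℤ => (g ^ m) ^ n • ((1 : G) : G ⧸ Γ))) :
    Good Γ g ∈ residual (G ⧸ Γ) ∧ Dense (Good Γ g) := by
  have ho : ∀ z : Idx Γ, IsOpen (W Γ g z.2.1.1 z.2.2.1.1 z.2.2.2.1.1.1 z.2.2.2.1.1.2 z.2.2.2.2) :=
    fun z => W_open Γ g ((TopologicalSpace.isBasis_countableBasis _).isOpen z.2.1.2) _ _ _ _
  have hd : ∀ z : Idx Γ, Dense (W Γ g z.2.1.1 z.2.2.1.1 z.2.2.2.1.1.1 z.2.2.2.1.1.2 z.2.2.2.2) :=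
    fun z => W_dense Γ hΓ g hmin ((TopologicalSpace.isBasis_countableBasis _).isOpen z.2.1.2) _
      z.2.2.1.2 _ z.2.2.2.1.2 _
  constructor
  · refine mem_of_superset ?_ (inter_W Γ g)
    exact countable_iInter_mem.2 fun z => residual_of_dense_open (ho z) (hd z)
  · refine Dense.mono (inter_W Γ g) ?_
    have h1 : Dense (⋂ z : Idx Γ, (QuotientGroup.mk : G → G ⧸ Γ) ⁻¹'
        W Γ g z.2.1.1 z.2.2.1.1 z.2.2.2.1.1.1 z.2.2.2.1.1.2 z.2.2.2.2) :=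
      dense_iInter_of_isOpen (fun z => (ho z).preimage QuotientGroup.continuous_mk)
        fun z => (hd z).preimage QuotientGroup.isOpenMap_coe
    rw [← preimage_iInter] at h1
    have h2 := (QuotientGroup.mk_surjective (s := Γ)).denseRange.dense_image
      QuotientGroup.continuous_mk h1
    rwa [image_preimage_eq _ QuotientGroup.mk_surjective] at h2

end general

end Pool.Agent.KS6_55.NR
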